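import Pool.Agent.U570.AH.MapsC

/-!
# A positive proportion of the iterates of almost all maps near `y ↦ m y + c` take infinitely many primes to primes

The question is about the map `y ↦ 4 y + 1`. There is an absolute constant `B` such that for every `ε > 0` there are `K` and
`A` with the following property. Let `m ≥ 2`, let `c` be an integer prime to `m`, let `N` be arbitrary and let `M` be
sufficiently divisible (by all `m ^ N (m ^ h - 1)`, `1 ≤ h ≤ N`). In every interval `[X, X + Y)` of length `Y ≥ Y₀`, for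
at least `⌊N / K⌋` of the exponents `k ≤ N` there is `α ≤ A` such that, with
`Q = M ^ α / (1 + m + ... + m ^ (k - 1))` (an integer), for at least the proportion `1 - ε` of ALL the integers `x` of the
interval the `k`-th iterate of the map

  `y ↦ m y + (c + Q x)`

takes infinitely many primes to primes, and takes at least `Z / (log Z) ^ B` of the primes up to `Z` to primes for
arbitrarily large `Z` (the same `Z` for all these `x`). So the maps `m y + c'` with `c'` in the class of `c` modulo `Q` have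
an iterate of bounded order `k ≤ K`, the same for almost all of them in the given interval, with this property, and a
positive proportion of all iterates have it.

Proof. With `a = 1`, `b = m` these are the equations `a ^ k p - b ^ k q = c_k + a ^ k M ^ α x`, where
`c_k = c (a ^ k - b ^ k) / (a - b)` (`Pool.Agent.U570.AH.maps`, for all coprime `a, b ≥ 1` with `a b > 1` and all `c` prime
to `a b`). The vertices of a partite graph with `T` classes are linear forms with the slopes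
`a₁ ^ (K - E) b₁ ^ E`, `a₁ = a ^ (6 j)`, `b₁ = b ^ (6 j)`, and residues `h_E`,
`(a - b) h_E = c + ρ a₁ ^ (K + 1 - E) b₁ ^ (E + 1)`, where `ρ` is chosen such that `h_E` is prime to `6 a b`; the constant
`a₁ ^ k h_(E + k) - b₁ ^ k h_E = c_(6 j k)` does not depend on `E`. The pairs whose equation is not good at the scale `Z` are
given by kernels `F_k (x' - ν_k x)` with the multipliers `ν_k = (b₁ / a₁) ^ k M ^ d`. Up to a small error in cut norm `F_k`
can be replaced by its average over a progression whose modulus is a power of `M`: at a frequency which is not near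
a rational number with a small denominator only boundedly many of the `ν_k` can contribute. If the proportion `ε` of
the constants is bad for all `k` and `α`, then a pigeonhole argument (along the blocks of the classes the averages
stabilise: energy increment) gives four classes with a positive proportion of quadruples of forms all of whose six
pairs are bad at the scale `Z`. This contradicts the coloured Maynard-Tao theorem `Pool.Agent.N900.FC.Main.coverU` (starting
files). The case of general `N` follows from the case of bounded `N` for the pairs `(a ^ (6 j), b ^ (6 j))`.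
-/

set_option autoImplicit false

namespace Pool.Agent.Results.MP_3df474_nt.AlmostAllNearbyMaps

open Finset Filter

/-- the map `y ↦ m y + c`; the question is about `F 4 1` -/
def F (m : ℕ) (c y : ℤ) : ℤ := m * y + c

/-- the primes `q` taken to a prime by the `k`-th iterate of `F m c` -/
def Taken (m : ℕ) (c : ℤ) (k : ℕ) : Set ℕ := {q | q.Prime ∧ ∃ p : ℕ, p.Prime ∧ (F m c)^[k] q = p}

/-- for at least the proportion `1 - ε` of the integers `x`, `X ≤ x < X + Y`, the `k`-th iterate of `F m (c + Q x)` takes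
infinitely many primes to primes, and for arbitrarily large `Z` (the same for all these `x`) it takes at least
`Z / (log Z) ^ B` primes `q ≤ Z` to primes -/
def AlmostAll (B : ℕ) (ε : ℝ) (m : ℕ) (c Q : ℤ) (k X Y : ℕ) : Prop :=
  ∃ E ⊆ Ico X (X + Y), (1 - ε) * (Y : ℝ) ≤ (E.card : ℝ) ∧
    (∀ x ∈ E, (Taken m (c + Q * x) k).Infinite) ∧
    ∃ᶠ Z : ℕ in atTop, ∀ x ∈ E,
      (Z : ℝ) / (Real.log Z) ^ B ≤ ({q | q ∈ Taken m (c + Q * x) k ∧ q ≤ Z}.ncard : ℝ)

theorem iter (m : ℕ) (c y : ℤ) (k : ℕ) : (F m c)^[k] y = (m : ℤ) ^ k * y + c * ∑ i ∈ range k, (m : ℤ) ^ i := by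
  induction k with
  | zero => simp
  | succ k ih =>
    rw [Function.iterate_succ_apply', ih, geom_sum_succ]
    unfold F
    rw [pow_succ]
    ring

theorem taken_iff (m : ℕ) (c : ℤ) (k q : ℕ) : q ∈ Taken m c k ↔ (q.Prime ∧ ∃ p : ℕ, p.Prime ∧
    ((1 ^ k : ℕ) : ℤ) * p - ((m ^ k : ℕ) : ℤ) * q = c * ∑ i ∈ range k, (m : ℤ) ^ i) := by
  unfold Taken
  simp only [Set.mem_ofPred_eq, iter]
  refine and_congr_right fun _ => exists_congr fun p => and_congr_right fun _ => ?_
  push_cast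
  rw [one_pow, one_mul]
  constructor
  · intro h
    linarith
  · intro h
    linarith

open Classical in
theorem result : ∃ B : ℕ, ∀ ε : ℝ, 0 < ε → ∃ K A : ℕ, 1 ≤ K ∧
    ∀ (m : ℕ) (c : ℤ), 2 ≤ m → IsCoprime (m : ℤ) c → ∀ N M : ℕ, 1 ≤ M →
    (∀ h : ℕ, 1 ≤ h → h ≤ N → m ^ N * (m ^ h - 1) ∣ M) → ∃ Y₀ : ℕ, ∀ Y : ℕ, Y₀ ≤ Y → ∀ X : ℕ,
    N / K ≤ ((Icc 1 N).filter (fun k => ∃ α : ℕ, 1 ≤ α ∧ α ≤ A ∧ (∑ i ∈ range k, m ^ i) ∣ M ^ α ∧
      AlmostAll B ε m c ((M ^ α / ∑ i ∈ range k, m ^ i : ℕ) : ℤ) k X Y)).card := by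
  obtain ⟨B, h⟩ := Pool.Agent.U570.AH.maps
  refine ⟨B, fun ε hε => ?_⟩
  obtain ⟨K, A, hK, h1⟩ := h ε hε
  refine ⟨K, A, hK, fun m c hm hmc N M hM hMh => ?_⟩
  have hpow : ∀ k : ℕ, 1 ≤ m ^ k := fun k => Nat.one_le_pow _ _ (by omega)
  obtain ⟨Y₀, h2⟩ := h1 1 m c le_rfl (by omega) (Nat.coprime_one_left m) (by omega) isCoprime_one_left hmc N M hM (by
    intro k hk1 hk
    have h3 : ((m ^ N * (m ^ k - 1) : ℕ) : ℤ) ∣ M := Int.natCast_dvd_natCast.2 (hMh k hk1 hk)
    rw [Nat.cast_mul, Nat.cast_sub (hpow k)] at h3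
    have h4 := (neg_dvd).2 h3
    push_cast at h4 ⊢
    have e : ((1 : ℤ) * (m : ℤ)) ^ N * (1 ^ k - (m : ℤ) ^ k) = -((m : ℤ) ^ N * ((m : ℤ) ^ k - 1)) := by
      rw [one_pow]; ring
    rw [e]
    exact h4)
  refine ⟨Y₀, fun Y hY X => (h2 Y hY X).trans ?_⟩
  refine card_le_card fun k hk => ?_
  rw [mem_filter, mem_Icc] at hk ⊢
  obtain ⟨⟨hk1, hkN⟩, α, hα1, hαA, h3⟩ := hk
  have hs : (∑ i ∈ range k, m ^ i) ∣ M ^ α := by
    have h4 : (∑ i ∈ range k, m ^ i) ∣ m ^ k - 1 := by
      have h5 := Nat.geomSum_eq (m := m) (by omega) k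
      rw [h5]
      exact Nat.div_dvd_of_dvd (by simpa using Nat.sub_one_dvd_pow_sub_one m k)
    exact ((h4.trans (Dvd.intro_left _ rfl)).trans (hMh k hk1 hkN)).trans (dvd_pow_self _ (by omega))
  refine ⟨⟨hk1, hkN⟩, α, hα1, hαA, hs, ?_⟩
  obtain ⟨E, hE, hc, hf⟩ := h3
  obtain ⟨Q, hQ⟩ : ∃ Q : ℕ, Q = M ^ α / ∑ i ∈ range k, m ^ i := ⟨_, rfl⟩
  have hQ2 : (Q : ℤ) * ∑ i ∈ range k, (m : ℤ) ^ i = (M : ℤ) ^ α := by
    have : Q * ∑ i ∈ range k, m ^ i = M ^ α := by rw [hQ]; exact Nat.div_mul_cancel hs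
    exact_mod_cast this
  have key : ∀ x : ℕ, (c + (Q : ℤ) * x) * ∑ i ∈ range k, (m : ℤ) ^ i =
      Pool.Agent.U570.AH.rhs 1 m c k + ((1 ^ k * M ^ α : ℕ) : ℤ) * (x : ℤ) := by
    intro x
    unfold Pool.Agent.U570.AH.rhs
    have e : ∑ i ∈ range k, ((1 : ℕ) : ℤ) ^ i * (m : ℤ) ^ (k - 1 - i) = ∑ i ∈ range k, (m : ℤ) ^ i := by
      simp only [Nat.cast_one, one_pow, one_mul]
      exact Finset.sum_range_reflect (fun i => (m : ℤ) ^ i) k
    rw [e]
    push_cast
    rw [one_pow, one_mul, ← hQ2]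
    ring
  have h4 : ∀ x Z : ℕ, {q | q ∈ Taken m (c + (Q : ℤ) * x) k ∧ q ≤ Z}.ncard =
      Pool.Agent.U570.AH.cnt (1 ^ k) (m ^ k)
        (Pool.Agent.U570.AH.rhs 1 m c k + ((1 ^ k * M ^ α : ℕ) : ℤ) * (x : ℤ)) Z := by
    intro x Z
    rw [Pool.Agent.U570.AH.cnt_ncard]
    congr 1
    ext q
    rw [← key x]
    simp only [Set.mem_ofPred_eq, taken_iff]
  rw [← hQ]
  refine ⟨E, hE, hc, fun x hx => ?_, hf.mono fun Z hZ x hx => ?_⟩
  · have h5 := Pool.Agent.U570.AH.inf_of B (1 ^ k) (m ^ k)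
      (Pool.Agent.U570.AH.rhs 1 m c k + ((1 ^ k * M ^ α : ℕ) : ℤ) * (x : ℤ))
      (hf.mono fun Z hZ => (hZ x hx).2)
    have hmk : (0 : ℤ) < ((m ^ k : ℕ) : ℤ) := by exact_mod_cast hpow k
    have h6 : Set.InjOn Prod.snd {pq : ℕ × ℕ | pq.1.Prime ∧ pq.2.Prime ∧
        ((1 ^ k : ℕ) : ℤ) * pq.1 - ((m ^ k : ℕ) : ℤ) * pq.2 =
          Pool.Agent.U570.AH.rhs 1 m c k + ((1 ^ k * M ^ α : ℕ) : ℤ) * (x : ℤ)} := by
      rintro ⟨p, q⟩ ⟨_, _, h7⟩ ⟨p', q'⟩ ⟨_, _, h7'⟩ hqq
      simp only at hqq h7 h7'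
      rw [one_pow] at h7 h7'
      rw [hqq] at h7
      have : (p : ℤ) = p' := by push_cast at h7 h7'; linarith
      rw [hqq, Nat.cast_injective this]
    refine (h5.image h6).mono ?_
    rintro _ ⟨⟨p, q⟩, ⟨hp, hq, h7⟩, rfl⟩
    rw [taken_iff]
    refine ⟨hq, p, hp, ?_⟩
    rw [key x]
    exact h7
  · rw [h4]
    exact (hZ x hx).2

end Pool.Agent.Results.MP_3df474_nt.AlmostAllNearbyMaps
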