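import Mathlib
import Pool.Agent.U462.Sh.ZFour

set_option autoImplicit false

/-!
# Pairs `p`, `4 p + 1`: every set of exceptional places is possible
-/

namespace Pool.Agent.Results.MP_3df474_nt.AnySetOfPlaces

open Finset Filter
open scoped Topology
open Pool.Agent.U462.Sh.Law

/-- **Every set of exceptional places is possible.** For every set `T` of natural numbers there is a set `S`
of rough numbers `≥ 2` such that for no `p` in `T` both `p` and `4 p + 1` belong to `S`, while the number of
the `p` with `x ≤ p < 2 x` and `p`, `4 p + 1` in `S` tends to infinity if `x` runs through numbers such that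
`T` has no element in `[x, 2 x)`, and for which the uniform Hardy–Littlewood law holds for all systems of
linear forms and all intervals, except for those systems with two forms `l, 4 l + 1` for which `l` has in the
interval a value in `T`. -/
theorem result : ∀ T : Set ℕ, ∃ S : Set ℕ, (∀ m ∈ S, 2 ≤ m ∧ Rough m) ∧
    (∀ p ∈ T, ¬ (p ∈ S ∧ 4 * p + 1 ∈ S)) ∧
    (∀ K : ℕ, ∃ x₀ : ℕ, ∀ x : ℕ, x₀ ≤ x → (∀ p ∈ T, ¬ (x ≤ p ∧ p < 2 * x)) →
      K ≤ {p : ℕ | x ≤ p ∧ p < 2 * x ∧ p ∈ S ∧ 4 * p + 1 ∈ S}.ncard) ∧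
    LawOn S (fun L u v => ∀ a b : ℤ, (a, b) ∈ L → (4 * a, 4 * b + 1) ∈ L → ∀ m : ℕ, u ≤ m → m < v →
      value (a, b) m ∉ T) := by
  classical
  intro T
  obtain ⟨S, h1, h2, h3⟩ := Pool.Agent.U462.Sh.affineOn 4 1 (by norm_num) T
  have hlaw : LawOn S (fun L u v => ∀ a b : ℤ, (a, b) ∈ L → (4 * a, 4 * b + 1) ∈ L → ∀ m : ℕ, u ≤ m → m < v →
      value (a, b) m ∉ T) := by
    refine Pool.Agent.U462.Sh.on_mono ?_ h3
    rintro L u v hL ⟨a, b⟩ hl hl' m hm1 hm2
    exact hL a b hl (by simpa using hl') m hm1 hm2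
  refine ⟨S, h1, ?_, ?_, hlaw⟩
  · rintro p hp ⟨h4, h5⟩
    apply h2 p hp h4 _ h5
    push_cast
    ring
  · intro K
    obtain ⟨X0, hX0⟩ := Pool.Agent.U462.Sh.many hlaw {(1, 0), (4, 1)} Pool.Agent.U462.Sh.four_sys
      Pool.Agent.U462.Sh.four_adm (1 / 2) (by norm_num) K
    refine ⟨X0 + 2, ?_⟩
    intro x hx hxT
    refine (hX0 (2 * x) (by omega) x (2 * x) (by omega) le_rfl ?_ ?_ ?_).trans ?_
    · rw [← Real.sqrt_eq_rpow]
      apply Real.sqrt_le_iff.2
      have hxR : (2 : ℝ) ≤ x := by exact_mod_cast (by omega : 2 ≤ x)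
      push_cast
      constructor
      · linarith
      · nlinarith
    · intro m hm1 hm2 l hl
      simp only [mem_insert, mem_singleton] at hl
      have : (2 : ℤ) ≤ m := by exact_mod_cast (by omega : 2 ≤ m)
      rcases hl with rfl | rfl
      · simp only; linarith
      · simp only; linarith
    · intro a b ha hb m hm1 hm2 hT
      simp only [mem_insert, mem_singleton, Prod.mk.injEq] at ha hb
      have hab : a = 1 ∧ b = 0 := by omega
      obtain ⟨rfl, rfl⟩ := hab
      have e5 : value (1, 0) m = m := by simp [value]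
      rw [e5] at hT
      exact hxT m hT ⟨hm1, hm2⟩
    · unfold count
      apply Set.ncard_le_ncard _ ((Set.finite_Iio (2 * x)).subset fun p hp => hp.2.1)
      rintro m ⟨hm1, hm2, hall⟩
      have h4 := hall (1, 0) (by simp)
      have h5 := hall (4, 1) (by simp)
      have e5 : value (1, 0) m = m := by simp [value]
      have e6 : value (4, 1) m = 4 * m + 1 := by
        unfold value
        omega
      rw [e5] at h4
      rw [e6] at h5
      exact ⟨hm1, hm2, h4, h5⟩

end Pool.Agent.Results.MP_3df474_nt.AnySetOfPlaces
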